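import Mathlib

/-!
# Subspaces stable under a nilpotent operator whose kernel is irreducible
-/

set_option autoImplicit false
set_option linter.unusedSectionVars false

namespace Pool.Agent.Y115.ST

open Module

section lin

variable {k : Type*} [Field k] {V : Type*} [AddCommGroup V] [Module k V]

/-- `U` is stable under the operators in `𝒢`. -/
def Stab (𝒢 : Set (End k V × k)) (U : Submodule k V) : Prop := ∀ g ∈ 𝒢, ∀ x ∈ U, g.1 x ∈ U

/-- The operators in `𝒢` commute with `N` up to a scalar. -/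
def Semi (𝒢 : Set (End k V × k)) (N : End k V) : Prop :=
  ∀ g ∈ 𝒢, g.2 ≠ 0 ∧ ∀ x, g.1 (N x) = g.2 • N (g.1 x)

theorem pow_semi {N g : End k V} {c : k} (h : ∀ x, g (N x) = c • N (g x)) (i : ℕ) (x : V) :
    g ((N ^ i) x) = c ^ i • (N ^ i) (g x) := by
  induction i generalizing x with
  | zero => simp
  | succ i ih =>
    rw [pow_succ', Module.End.mul_apply, h, ih, map_smul, smul_smul, pow_succ' c,
      ← Module.End.mul_apply N (N ^ i)]

variable {N : End k V} {𝒢 : Set (End k V × k)}

theorem stab_map (h : Semi 𝒢 N) {U : Submodule k V} (hU : Stab 𝒢 U) (i : ℕ) :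
    Stab 𝒢 (U.map (N ^ i)) := by
  rintro g hg _ ⟨x, hx, rfl⟩
  rw [pow_semi (h g hg).2]
  exact Submodule.smul_mem _ _ ⟨_, hU g hg x hx, rfl⟩

theorem mem_ker_pow_of {g : End k V} {c : k} (hc : c ≠ 0) (h : ∀ x, g (N x) = c • N (g x)) (i : ℕ)
    {x : V} (hx : x ∈ LinearMap.ker (N ^ i)) : g x ∈ LinearMap.ker (N ^ i) := by
  rw [LinearMap.mem_ker] at hx ⊢
  have h1 := pow_semi h i x
  rw [hx, map_zero] at h1
  exact (smul_eq_zero.1 h1.symm).resolve_left (pow_ne_zero _ hc)

theorem map_pow_le {U : Submodule k V} (hUN : ∀ x ∈ U, N x ∈ U) {i j : ℕ} (hij : i ≤ j) :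
    U.map (N ^ j) ≤ U.map (N ^ i) := by
  obtain ⟨c, rfl⟩ := Nat.exists_eq_add_of_le hij
  have hc : ∀ (c : ℕ) (x : V), x ∈ U → (N ^ c) x ∈ U := by
    intro c
    induction c with
    | zero => intro x hx; simpa using hx
    | succ c ih =>
      intro x hx
      rw [pow_succ, Module.End.mul_apply]
      exact ih _ (hUN x hx)
  rintro _ ⟨x, hx, rfl⟩
  exact ⟨(N ^ c) x, hc c x hx, by rw [pow_add, Module.End.mul_apply]⟩

/-- **The stable subspaces are the kernels of the powers of `N`.** -/
theorem eq_ker_pow (hN : IsNilpotent N) (h : Semi 𝒢 N)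
    (hirr : ∀ W ≤ LinearMap.ker N, Stab 𝒢 W → W = ⊥ ∨ W = LinearMap.ker N)
    (U : Submodule k V) (hUN : ∀ x ∈ U, N x ∈ U) (hU : Stab 𝒢 U) :
    ∃ j, U = LinearMap.ker (N ^ j) ∧ ∀ i ≤ j, LinearMap.ker (N ^ i) ≤ U.map (N ^ (j - i)) := by
  classical
  have hex : ∃ j, U.map (N ^ j) = ⊥ := by
    obtain ⟨m, hm⟩ := hN
    exact ⟨m, by rw [hm, Submodule.map_zero]⟩
  set j := Nat.find hex with hj
  have hj0 : U.map (N ^ j) = ⊥ := Nat.find_spec hex
  refine ⟨j, ?_⟩
  have hle : U ≤ LinearMap.ker (N ^ j) := by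
    intro x hx
    rw [LinearMap.mem_ker]
    have h1 : (N ^ j) x ∈ U.map (N ^ j) := ⟨x, hx, rfl⟩
    rw [hj0, Submodule.mem_bot] at h1
    exact h1
  have key : ∀ i ≤ j, LinearMap.ker (N ^ i) ≤ U.map (N ^ (j - i)) := by
    intro i
    induction i with
    | zero =>
      intro _ x hx
      rw [LinearMap.mem_ker, pow_zero, Module.End.one_apply] at hx
      rw [hx]
      exact Submodule.zero_mem _
    | succ i ih =>
      intro hi x hx
      have hne : U.map (N ^ (j - 1)) ≠ ⊥ := Nat.find_min hex (by omega)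
      have hW : U.map (N ^ (j - 1)) = LinearMap.ker N := by
        refine (hirr _ ?_ (stab_map h hU _)).resolve_left hne
        rintro _ ⟨y, hy, rfl⟩
        rw [LinearMap.mem_ker, ← Module.End.mul_apply, ← pow_succ', show j - 1 + 1 = j by omega]
        exact LinearMap.mem_ker.1 (hle hy)
      have h1 : (N ^ i) x ∈ LinearMap.ker N := by
        rw [LinearMap.mem_ker, ← Module.End.mul_apply, ← pow_succ']
        exact LinearMap.mem_ker.1 hx
      rw [← hW] at h1
      obtain ⟨u, hu, hux⟩ := h1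
      have h2 : x - (N ^ (j - (i + 1))) u ∈ LinearMap.ker (N ^ i) := by
        rw [LinearMap.mem_ker, map_sub, ← Module.End.mul_apply, ← pow_add,
          show i + (j - (i + 1)) = j - 1 by omega, hux, sub_self]
      have h3 := map_pow_le hUN (show j - (i + 1) ≤ j - i by omega) (ih (by omega) h2)
      have h4 : x = (x - (N ^ (j - (i + 1))) u) + (N ^ (j - (i + 1))) u := by abel
      rw [h4]
      exact Submodule.add_mem _ h3 ⟨u, hu, rfl⟩
  refine ⟨le_antisymm hle ?_, key⟩
  have h1 := key j le_rfl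
  rw [Nat.sub_self, pow_zero] at h1
  intro x hx
  obtain ⟨y, hy, rfl⟩ := h1 hx
  exact hy

end lin

section det

variable {k : Type*} [Field k]

/-- The determinant on an extension. -/
theorem det_ext {W Z K : Type*} [AddCommGroup W] [Module k W] [FiniteDimensional k W]
    [AddCommGroup Z] [Module k Z] [AddCommGroup K] [Module k K] (π : W →ₗ[k] Z)
    (hπ : Function.Surjective π) (f : End k W) (g : End k Z) (h : End k K)
    (hf : ∀ x, π (f x) = g (π x)) (e : K →ₗ[k] W) (he : Function.Injective e)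
    (heπ : ∀ w, π w = 0 ↔ ∃ x, e x = w) (hfe : ∀ x, f (e x) = e (h x)) :
    LinearMap.det f = LinearMap.det h * LinearMap.det g := by
  have hst : LinearMap.ker π ≤ (LinearMap.ker π).comap f := by
    intro x hx
    rw [Submodule.mem_comap, LinearMap.mem_ker, hf, LinearMap.mem_ker.1 hx, map_zero]
  rw [LinearMap.det_eq_det_mul_det (LinearMap.ker π) f hst]
  congr 1
  · let e' : K ≃ₗ[k] LinearMap.ker π := LinearEquiv.ofBijective
      (e.codRestrict (LinearMap.ker π) fun x => (heπ _).2 ⟨x, rfl⟩)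
      ⟨fun x y hxy => he (congrArg Subtype.val hxy), fun ⟨w, hw⟩ => by
        obtain ⟨x, hx⟩ := (heπ w).1 hw
        exact ⟨x, Subtype.ext hx⟩⟩
    rw [← LinearMap.det_conj h e']
    congr 1
    refine LinearMap.ext fun w => ?_
    obtain ⟨x, rfl⟩ := e'.surjective w
    apply Subtype.ext
    simp only [LinearMap.comp_apply, LinearEquiv.coe_coe, LinearEquiv.symm_apply_apply]
    exact hfe x
  · let q : (W ⧸ LinearMap.ker π) ≃ₗ[k] Z := π.quotKerEquivOfSurjective hπ
    rw [← LinearMap.det_conj ((LinearMap.ker π).mapQ (LinearMap.ker π) f hst) q]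
    congr 1
    refine LinearMap.ext fun z => ?_
    obtain ⟨w, rfl⟩ := hπ z
    have h1 : q.symm (π w) = Submodule.Quotient.mk w := by
      rw [LinearEquiv.symm_apply_eq]
      rfl
    simp only [LinearMap.comp_apply, LinearEquiv.coe_coe]
    rw [h1, Submodule.mapQ_apply]
    exact hf w

variable {V : Type*} [AddCommGroup V] [Module k V] [FiniteDimensional k V] {N : End k V}

/-- **Dimensions and determinants on the kernels of the powers of `N`.** -/
theorem det_ker_pow {m : ℕ} (hm : ∀ i ≤ m, LinearMap.ker (N ^ i) ≤ LinearMap.range (N ^ (m - i)))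
    (σ : End k V) {c : k} (hc : c ≠ 0) (hσ : ∀ x, σ (N x) = c • N (σ x))
    (hst : ∀ j, ∀ x ∈ LinearMap.ker (N ^ j), σ x ∈ LinearMap.ker (N ^ j)) (j : ℕ) (hj : j ≤ m) :
    finrank k (LinearMap.ker (N ^ j)) = j * finrank k (LinearMap.ker (N ^ 1)) ∧
      LinearMap.det (σ.restrict (hst j)) * c ^ (finrank k (LinearMap.ker (N ^ 1)) *
        (j * (j - 1) / 2)) = LinearMap.det (σ.restrict (hst 1)) ^ j := by
  induction j with
  | zero =>
    have h0 : LinearMap.ker (N ^ 0) = ⊥ := by
      rw [pow_zero]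
      exact LinearMap.ker_eq_bot.2 fun x y h => h
    have h1 : finrank k (LinearMap.ker (N ^ 0)) = 0 := by
      rw [h0, finrank_bot]
    refine ⟨by rw [h1, zero_mul], ?_⟩
    rw [LinearMap.det_eq_one_of_finrank_eq_zero h1]
    simp
  | succ j ih =>
    obtain ⟨ih1, ih2⟩ := ih (by omega)
    -- the projection
    have hπm : ∀ x ∈ LinearMap.ker (N ^ (j + 1)), N x ∈ LinearMap.ker (N ^ j) := by
      intro x hx
      rw [LinearMap.mem_ker, ← Module.End.mul_apply, ← pow_succ]
      exact LinearMap.mem_ker.1 hx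
    let π : LinearMap.ker (N ^ (j + 1)) →ₗ[k] LinearMap.ker (N ^ j) := N.restrict hπm
    have hπ : Function.Surjective π := by
      rintro ⟨z, hz⟩
      obtain ⟨y, hy⟩ := hm j (by omega) hz
      have h2 : N ((N ^ (m - j - 1)) y) = z := by
        rw [← Module.End.mul_apply, ← pow_succ', show m - j - 1 + 1 = m - j by omega, hy]
      refine ⟨⟨(N ^ (m - j - 1)) y, ?_⟩, Subtype.ext h2⟩
      rw [LinearMap.mem_ker, pow_succ, Module.End.mul_apply, h2]
      exact LinearMap.mem_ker.1 hz
    have hle : LinearMap.ker (N ^ 1) ≤ LinearMap.ker (N ^ (j + 1)) := by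
      intro x hx
      rw [LinearMap.mem_ker] at hx ⊢
      rw [pow_one] at hx
      rw [pow_succ, Module.End.mul_apply, hx, map_zero]
    let e : LinearMap.ker (N ^ 1) →ₗ[k] LinearMap.ker (N ^ (j + 1)) := Submodule.inclusion hle
    have he : Function.Injective e := Submodule.inclusion_injective hle
    have heπ : ∀ w, π w = 0 ↔ ∃ x, e x = w := by
      rintro ⟨w, hw⟩
      constructor
      · intro h
        have h1 : N w = 0 := congrArg Subtype.val h
        exact ⟨⟨w, by rw [LinearMap.mem_ker, pow_one]; exact h1⟩, rfl⟩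
      · rintro ⟨⟨x, hx⟩, h⟩
        have h1 : x = w := congrArg Subtype.val h
        subst h1
        rw [LinearMap.mem_ker, pow_one] at hx
        exact Subtype.ext hx
    have hcard : finrank k (LinearMap.ker (N ^ (j + 1))) =
        finrank k (LinearMap.ker (N ^ j)) + finrank k (LinearMap.ker (N ^ 1)) := by
      have h1 := LinearMap.finrank_range_add_finrank_ker π
      rw [LinearMap.range_eq_top.2 hπ, finrank_top] at h1
      have h2 : finrank k (LinearMap.ker π) = finrank k (LinearMap.ker (N ^ 1)) := by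
        have h3 : LinearMap.ker π = LinearMap.range e := by
          ext w
          rw [LinearMap.mem_ker, heπ]
          rfl
        rw [h3, LinearMap.finrank_range_of_inj he]
      omega
    refine ⟨by rw [hcard, ih1]; ring, ?_⟩
    have hdet := det_ext π hπ (σ.restrict (hst (j + 1))) (c⁻¹ • σ.restrict (hst j))
      (σ.restrict (hst 1)) (fun x => Subtype.ext (by
        change N (σ x) = c⁻¹ • σ (N x)
        rw [hσ, smul_smul, inv_mul_cancel₀ hc, one_smul])) e he heπ (fun x => Subtype.ext rfl)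
    rw [LinearMap.det_smul, ih1] at hdet
    rw [hdet, pow_succ' (LinearMap.det (σ.restrict (hst 1))) j, ← ih2]
    have hexp : finrank k (LinearMap.ker (N ^ 1)) * ((j + 1) * (j + 1 - 1) / 2) =
        j * finrank k (LinearMap.ker (N ^ 1)) +
          finrank k (LinearMap.ker (N ^ 1)) * (j * (j - 1) / 2) := by
      have h1 : (j + 1) * (j + 1 - 1) / 2 = j + j * (j - 1) / 2 := by
        have h2 : (j + 1) * (j + 1 - 1) = j * 2 + j * (j - 1) := by
          rcases j with _ | j
          · rfl
          · simp only [Nat.add_sub_cancel]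
            ring
        rw [h2, Nat.add_comm (j * 2), Nat.add_mul_div_right _ _ two_pos, add_comm]
      rw [h1]
      ring
    rw [hexp, pow_add]
    have h5 : (c⁻¹) ^ (j * finrank k (LinearMap.ker (N ^ 1))) *
        c ^ (j * finrank k (LinearMap.ker (N ^ 1))) = 1 := by
      rw [← mul_pow, inv_mul_cancel₀ hc, one_pow]
    linear_combination (LinearMap.det (σ.restrict (hst 1)) * LinearMap.det (σ.restrict (hst j)) *
      c ^ (finrank k (LinearMap.ker (N ^ 1)) * (j * (j - 1) / 2))) * h5

end det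

end Pool.Agent.Y115.ST
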