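import Mathlib
import Pool.Agent.Y115.Bar
import Pool.Agent.Y115.ST.Lin
import Pool.Agent.Y41.RM.Log

/-!
# Representations of the Galois group of `ℚ` with a place of generalized Steinberg type
-/

set_option autoImplicit false
set_option linter.unusedSectionVars false

namespace Pool.Agent.Y115.ST

open NumberField IsDedekindDomain Pool.Agent.W569.FM Pool.Agent.W571.FM Pool.Agent.Y115.R
open Pool.Agent.Y115.T Pool.Agent.Y115.Chi Pool.Agent.Y115.CQ Polynomial Module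
open Pool.Agent.Y114.MU

section ineq

theorem prod_lt {A : Multiset ℝ} {y : ℝ} (h : ∀ a ∈ A, 0 < a ∧ a < y) (hA : A ≠ 0) :
    A.prod < y ^ Multiset.card A := by
  induction A using Multiset.induction_on with
  | empty => exact absurd rfl hA
  | cons a A ih =>
    rw [Multiset.prod_cons, Multiset.card_cons, pow_succ']
    obtain ⟨ha0, ha⟩ := h a (Multiset.mem_cons_self a A)
    have hA' : ∀ b ∈ A, 0 < b ∧ b < y := fun b hb => h b (Multiset.mem_cons_of_mem hb)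
    have hpos : 0 < A.prod := by
      refine Multiset.prod_pos fun b hb => (hA' b hb).1
    rcases eq_or_ne A 0 with h0 | h0
    · rw [h0]
      simpa using ha
    · exact mul_lt_mul ha (ih hA' h0).le hpos (ha0.trans ha).le

theorem js {A B : Multiset ℝ} {p : ℝ} (hp : 0 < p) (hA : ∀ a ∈ A, 0 < a) (hB : ∀ b ∈ B, 0 < b)
    (h : ∀ a ∈ A, ∀ b ∈ B, a < p * b) (hA0 : A ≠ 0) (hB0 : B ≠ 0) :
    A.prod ^ Multiset.card B <
      p ^ (Multiset.card A * Multiset.card B) * B.prod ^ Multiset.card A := by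
  have hBp : 0 < B.prod := Multiset.prod_pos fun b hb => hB b hb
  have h1 : ∀ a ∈ A, a ^ Multiset.card B < p ^ Multiset.card B * B.prod := by
    intro a ha
    have h2 : (B.map fun b => a / (p * b)).prod < 1 ^ Multiset.card (B.map fun b => a / (p * b)) := by
      refine prod_lt (fun x hx => ?_) fun h0 => hB0 (Multiset.map_eq_zero.1 h0)
      obtain ⟨b, hb, rfl⟩ := Multiset.mem_map.1 hx
      have hb0 := hB b hb
      exact ⟨div_pos (hA a ha) (mul_pos hp hb0), (div_lt_one (mul_pos hp hb0)).2 (h a ha b hb)⟩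
    rw [one_pow, Multiset.prod_map_div, Multiset.prod_map_mul, Multiset.map_const',
      Multiset.prod_replicate, Multiset.map_const', Multiset.prod_replicate, Multiset.map_id',
      div_lt_one (mul_pos (pow_pos hp _) hBp)] at h2
    exact h2
  have h2 : (A.map fun a => a ^ Multiset.card B).prod <
      (p ^ Multiset.card B * B.prod) ^ Multiset.card (A.map fun a => a ^ Multiset.card B) := by
    refine prod_lt (fun x hx => ?_) fun h0 => hA0 (Multiset.map_eq_zero.1 h0)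
    obtain ⟨a, ha, rfl⟩ := Multiset.mem_map.1 hx
    exact ⟨pow_pos (hA a ha) _, h1 a ha⟩
  rw [Multiset.prod_map_pow, Multiset.map_id', Multiset.card_map, mul_pow, ← pow_mul,
    mul_comm (Multiset.card B)] at h2
  exact h2

end ineq

variable (ℓ : ℕ) [hℓ : Fact ℓ.Prime]

/-- Characters with values in the algebraic closure of `ℚ_ℓ`. -/
theorem char_bar (ψ : GF ℚ →* (PadicAlgCl ℓ)ˣ) (hψ : Continuous ψ) (l : Fin 3 → ℕ)
    (hl : ∀ i, (l i).Prime) (hinj : Function.Injective l) (hlℓ : ∀ i, l i ≠ ℓ)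
    (P : Fin 3 → Ideal (OO ℚ)) (hP : ∀ i, (P i).IsPrime) (hPl : ∀ i, (l i : OO ℚ) ∈ P i)
    (σ : Fin 3 → GF ℚ) (hσ : ∀ i, FrobAt (l i) (P i) (σ i))
    (halg : ∀ i, IsAlgebraic ℚ (ψ (σ i) : PadicAlgCl ℓ)) :
    ∃ (N : ℕ) (a : ℤ), 0 < N ∧ ∀ (q : ℕ) (Q : Ideal (OO ℚ)) (φ : GF ℚ), Q.IsPrime →
      (ℓ : OO ℚ) ∉ Q → FrobAt q Q φ → (ψ φ : PadicAlgCl ℓ) ^ N = (q : PadicAlgCl ℓ) ^ a := by
  classical
  obtain ⟨K, hK, hψK⟩ := FI.exists_field ℓ ψ hψ
  let f : GF ℚ →* K :=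
    { toFun := fun g => ⟨(ψ g : PadicAlgCl ℓ), hψK g⟩
      map_one' := by
        apply Subtype.ext
        show ((ψ 1 : (PadicAlgCl ℓ)ˣ) : PadicAlgCl ℓ) = 1
        rw [map_one, Units.val_one]
      map_mul' := by
        intro a b
        apply Subtype.ext
        show ((ψ (a * b) : (PadicAlgCl ℓ)ˣ) : PadicAlgCl ℓ) = ψ a * ψ b
        rw [map_mul, Units.val_mul] }
  set φ : GF ℚ →* Kˣ := f.toHomUnits with hφ
  have hφv : ∀ g, ((φ g : K) : PadicAlgCl ℓ) = ψ g := fun g => rfl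
  have hfc : Continuous f := Continuous.subtype_mk (Units.continuous_val.comp hψ) _
  have hφc : Continuous φ := by
    rw [Units.continuous_iff]
    refine ⟨hfc, ?_⟩
    have h2 : (fun g => (((φ g)⁻¹ : Kˣ) : K)) = fun g => f g⁻¹ := by
      funext g
      rw [← map_inv]
      rfl
    rw [h2]
    exact hfc.comp continuous_inv
  have hcompl : CompleteSpace K := FiniteDimensional.complete ℚ_[ℓ] K
  have hultra : IsUltrametricDist K := IsUltrametricDist.of_normedAlgebra ℚ_[ℓ]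
  have hchar : CharZero K := charZero_of_injective_algebraMap (algebraMap ℚ_[ℓ] K).injective
  obtain ⟨N, a, hN, hNa⟩ := char_main φ hφc l hl hinj hlℓ P hP hPl σ hσ fun i =>
    (isAlgebraic_algHom_iff (RingHom.toRatAlgHom (algebraMap K (PadicAlgCl ℓ)))
      (algebraMap K (PadicAlgCl ℓ)).injective).1 (halg i)
  refine ⟨N, a, hN, fun q Q g hQ hQℓ hg => ?_⟩
  have h1 := congrArg (fun u : Kˣ => ((u : K) : PadicAlgCl ℓ)) (hNa g)
  simp only [Units.val_pow_eq_pow_val, Units.val_zpow_eq_zpow_val] at h1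
  have h2 : (chiE ℓ K g : K) = (q : K) := by
    rw [coe_chiE, chi_frob hQ hQℓ hg]
    simp
  rw [h2] at h1
  have h3 := congrArg (algebraMap K (PadicAlgCl ℓ)) (show ((φ g : K)) ^ N = (q : K) ^ a from
    Subtype.ext h1)
  rw [map_pow, map_zpow₀, map_natCast] at h3
  exact h3

variable {ℓ} {n : ℕ}

/-- The eigenvalues on a stable subspace. -/
theorem exists_eig (ρ : GF ℚ →* GL (Fin n) (PadicAlgCl ℓ)) (ι : PadicAlgCl ℓ →+* ℂ)
    (W : Submodule (PadicAlgCl ℓ) (Fin n → PadicAlgCl ℓ)) (hW : ∀ g, W ≤ W.comap (act ρ g))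
    (g : GF ℚ) : ∃ A : Multiset ℂ, Multiset.card A = finrank (PadicAlgCl ℓ) W ∧
      A ≤ (((ρ g : GL (Fin n) (PadicAlgCl ℓ)) :
        Matrix (Fin n) (Fin n) (PadicAlgCl ℓ)).charpoly.map ι).roots ∧
      A.prod = ι (dt ρ W hW g : PadicAlgCl ℓ) := by
  set C : (PadicAlgCl ℓ)[X] := (res ρ W hW g).charpoly with hC
  have hsplit : (C.map ι).Splits := IsAlgClosed.splits _
  have hCm : C.Monic := LinearMap.charpoly_monic _
  have hdeg : C.natDegree = finrank (PadicAlgCl ℓ) W := LinearMap.charpoly_natDegree _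
  refine ⟨(C.map ι).roots, ?_, ?_, ?_⟩
  · rw [← hsplit.natDegree_eq_card_roots, Polynomial.natDegree_map, hdeg]
  · have h1 := Pool.Agent.W522.C.charpoly_eq_mul (act ρ g) W (hW _)
    have h2 : (act ρ g).charpoly.Monic := LinearMap.charpoly_monic _
    have h3 : (act ρ g).charpoly = ((ρ g : GL (Fin n) (PadicAlgCl ℓ)) :
        Matrix (Fin n) (Fin n) (PadicAlgCl ℓ)).charpoly := by
      unfold act
      rw [Matrix.charpoly_mulVecLin]
    rw [← h3]
    apply Polynomial.roots.le_of_dvd (h2.map ι).ne_zero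
    exact Polynomial.map_dvd ι (Dvd.intro _ h1.symm)
  · have h1 : ((dt ρ W hW g : (PadicAlgCl ℓ)ˣ) : PadicAlgCl ℓ) = LinearMap.det (res ρ W hW g) :=
      rfl
    rw [h1, LinearMap.det_eq_sign_charpoly_coeff]
    have h2 : (res ρ W hW g).charpoly = C := rfl
    rw [h2, map_mul, map_pow, map_neg, map_one, ← coeff_map,
      hsplit.coeff_zero_eq_prod_roots_of_monic (hCm.map ι), Polynomial.natDegree_map, hdeg,
      ← mul_assoc, ← pow_add, ← two_mul, pow_mul, neg_one_sq, one_pow, one_mul]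

theorem zpow_lt_iff {p : ℕ} (hp : p.Prime) {a b : ℤ} (h : (p : ℝ) ^ a < (p : ℝ) ^ b) : a < b :=
  (zpow_lt_zpow_iff_right₀ (by exact_mod_cast hp.one_lt)).1 h

/-- **Representations with a place of generalized Steinberg type are irreducible.** -/
theorem irreducible_of_steinberg (ρ : GF ℚ →* GL (Fin n) (PadicAlgCl ℓ)) (hρ : Continuous ρ)
    (ι : PadicAlgCl ℓ →+* ℂ) (T : Set ℕ) (hT3 : 3 ≤ T.encard)
    (hT : ∀ p ∈ T, p.Prime ∧ p ≠ ℓ) (S : ℕ → Multiset ℂ)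
    (hgood : ∀ p ∈ T, ∀ Q : Ideal (OO ℚ), Q.IsPrime → (p : OO ℚ) ∈ Q → ∀ g, FrobAt p Q g →
      (((ρ g⁻¹ : GL (Fin n) (PadicAlgCl ℓ)) :
        Matrix (Fin n) (Fin n) (PadicAlgCl ℓ)).charpoly.map ι).roots = S p)
    (halg : ∀ p ∈ T, ∀ a ∈ S p, IsAlgebraic ℚ a)
    {p₁ : ℕ} (hp₁ : p₁ ∈ T) (hJS : ∀ a ∈ S p₁, ∀ b ∈ S p₁, ‖a‖ < p₁ * ‖b‖)
    {p₀ : ℕ} (hp₀ : p₀.Prime ∧ p₀ ≠ ℓ) {Q₀ : Ideal (OO ℚ)} (hQ₀ : Q₀.IsPrime)
    (hpQ₀ : (p₀ : OO ℚ) ∈ Q₀) {σ₀ τ : GF ℚ} (hσ₀ : FrobAt p₀ Q₀ σ₀)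
    (hnil : IsNilpotent (act ρ τ - 1)) (hστ : ρ (σ₀ * τ * σ₀⁻¹) = ρ (τ ^ p₀))
    (I : Set (GF ℚ)) (hI : ∀ g ∈ I, ρ (g * τ * g⁻¹) = ρ τ)
    (hirr : ∀ U : Submodule (PadicAlgCl ℓ) (Fin n → PadicAlgCl ℓ),
      U ≤ LinearMap.ker (act ρ τ - 1) → (∀ g, g = σ₀ ∨ g ∈ I → ∀ x ∈ U, act ρ g x ∈ U) →
        U = ⊥ ∨ U = LinearMap.ker (act ρ τ - 1))
    (W : Submodule (PadicAlgCl ℓ) (Fin n → PadicAlgCl ℓ))
    (hW : ∀ g, W ≤ W.comap (act ρ g)) : W = ⊥ ∨ W = ⊤ := by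
  classical
  by_contra hcon
  push Not at hcon
  obtain ⟨hbot, htop⟩ := hcon
  -- the monodromy operator
  set ν : End (PadicAlgCl ℓ) (Fin n → PadicAlgCl ℓ) := act ρ τ - 1 with hν
  have hτν : act ρ τ = 1 + ν := by rw [hν]; abel
  obtain ⟨d, hd⟩ := hnil
  have hd2 : ν ^ (d + 2) = 0 := by rw [pow_add, hd, zero_mul]
  set N : End (PadicAlgCl ℓ) (Fin n → PadicAlgCl ℓ) := lgA (d + 2) ν 1 with hNdef
  have hN : IsNilpotent N := lgA_one_nil d ⟨d, hd⟩
  have hker : LinearMap.ker N = LinearMap.ker ν := by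
    obtain ⟨w, hw, h1⟩ := lgA_one d ν
    have h2 : IsNilpotent (ν * w) := hw.isNilpotent_mul_right ⟨d, hd⟩
    have h3 : IsUnit (1 + ν * w) := by
      rw [add_comm]
      exact h2.isUnit_add_one
    have hc : Commute ν (1 + ν * w) := (Commute.one_right ν).add_right
      ((Commute.refl ν).mul_right hw)
    obtain ⟨u, hu⟩ := h3
    have h4 : N = (u : End (PadicAlgCl ℓ) (Fin n → PadicAlgCl ℓ)) * ν := by
      rw [hNdef, h1, hc.eq, hu]
    ext x
    rw [LinearMap.mem_ker, LinearMap.mem_ker, h4, Module.End.mul_apply]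
    constructor
    · intro h
      have h5 : ((u⁻¹ : (End (PadicAlgCl ℓ) (Fin n → PadicAlgCl ℓ))ˣ) :
        End (PadicAlgCl ℓ) (Fin n → PadicAlgCl ℓ)) ((u : End (PadicAlgCl ℓ)
          (Fin n → PadicAlgCl ℓ)) (ν x)) = ν x := by
        rw [← Module.End.mul_apply, Units.inv_mul, Module.End.one_apply]
      rw [← h5, h, map_zero]
    · intro h
      rw [h, map_zero]
  have hinv : ∀ g, act ρ g * act ρ g⁻¹ = 1 := fun g => by
    rw [← act_mul, mul_inv_cancel, act_one]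
  have hinv' : ∀ g, act ρ g⁻¹ * act ρ g = 1 := fun g => by
    rw [← act_mul, inv_mul_cancel, act_one]
  have hlog : ∀ (g : GF ℚ) (q : ℕ), ρ (g * τ * g⁻¹) = ρ (τ ^ q) →
      ∀ x, act ρ g (N x) = (q : PadicAlgCl ℓ) • N (act ρ g x) := by
    intro g q hg x
    have h1 : act ρ g * (1 + ν) * act ρ g⁻¹ = (1 + ν) ^ q := by
      rw [← hτν, ← act_mul, ← act_mul]
      have h2 : act ρ (g * τ * g⁻¹) = act ρ (τ ^ q) := by
        unfold act
        rw [hg]
      rw [h2]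
      clear h2 hg
      induction q with
      | zero => rw [pow_zero, pow_zero, act_one]
      | succ q ih => rw [pow_succ, pow_succ, act_mul, ih]
    have h2 := Pool.Agent.Y41.RM.log2 _ _ ν (act ρ g) (act ρ g⁻¹) (d + 2) q (by omega) hd2 (hinv g)
      (hinv' g) h1
    have h3 : act ρ g * N = q • (N * act ρ g) := by
      have h4 := congrArg (fun X => X * act ρ g) h2
      beta_reduce at h4
      rw [mul_assoc _ (act ρ g⁻¹), hinv', mul_one, smul_mul_assoc] at h4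
      exact h4
    have h4 := congrArg (fun X : End (PadicAlgCl ℓ) (Fin n → PadicAlgCl ℓ) => X x) h3
    simp only [Module.End.mul_apply, LinearMap.smul_apply] at h4
    rw [h4, Nat.cast_smul_eq_nsmul]
  set 𝒢 : Set (End (PadicAlgCl ℓ) (Fin n → PadicAlgCl ℓ) × PadicAlgCl ℓ) :=
    {x | x = (act ρ σ₀, (p₀ : PadicAlgCl ℓ)) ∨ ∃ g ∈ I, x = (act ρ g, 1)} with h𝒢
  have hp₀0 : (p₀ : PadicAlgCl ℓ) ≠ 0 := Nat.cast_ne_zero.2 hp₀.1.ne_zero
  have hsemi : Semi 𝒢 N := by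
    rintro g (rfl | ⟨g, hg, rfl⟩)
    · exact ⟨hp₀0, hlog σ₀ p₀ hστ⟩
    · refine ⟨one_ne_zero, fun x => ?_⟩
      have h1 := hlog g 1 (by rw [pow_one]; exact hI g hg) x
      rwa [Nat.cast_one] at h1
  have hirr' : ∀ U ≤ LinearMap.ker N, Stab 𝒢 U → U = ⊥ ∨ U = LinearMap.ker N := by
    intro U hU hUst
    rw [hker] at hU ⊢
    refine hirr U hU ?_
    rintro g (rfl | hg) x hx
    · exact hUst _ (Or.inl rfl) x hx
    · exact hUst _ (Or.inr ⟨g, hg, rfl⟩) x hx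
  have hNst : ∀ U : Submodule (PadicAlgCl ℓ) (Fin n → PadicAlgCl ℓ),
      (∀ x ∈ U, act ρ τ x ∈ U) → ∀ x ∈ U, N x ∈ U := by
    intro U hU
    refine Pool.Agent.Y41.RM.log3 _ _ ν (d + 2) 1 (by omega) hd2 one_pos U fun x hx => ?_
    rw [pow_one, ← hτν]
    exact hU x hx
  obtain ⟨j, hWj, -⟩ := eq_ker_pow hN hsemi hirr' W (hNst W (hW τ)) (by
    rintro g (rfl | ⟨g, -, rfl⟩) x hx
    · exact hW _ hx
    · exact hW _ hx)
  obtain ⟨m, hVm, hm⟩ := eq_ker_pow hN hsemi hirr' ⊤ (fun x _ => Submodule.mem_top)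
    (fun g _ x _ => Submodule.mem_top)
  have hjm : j ≤ m := by
    by_contra hlt
    apply htop
    rw [hWj, eq_top_iff, hVm]
    intro x hx
    obtain ⟨c, hc⟩ := Nat.exists_eq_add_of_le (show m ≤ j by omega)
    rw [LinearMap.mem_ker] at hx ⊢
    rw [hc, add_comm, pow_add, Module.End.mul_apply, hx, map_zero]
  subst hWj
  have hst : ∀ i, ∀ x ∈ LinearMap.ker (N ^ i), act ρ σ₀ x ∈ LinearMap.ker (N ^ i) := fun i x hx =>
    mem_ker_pow_of hp₀0 (hlog σ₀ p₀ hστ) i hx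
  have hm' : ∀ i ≤ m, LinearMap.ker (N ^ i) ≤ LinearMap.range (N ^ (m - i)) := by
    intro i hi
    rw [LinearMap.range_eq_map]
    exact hm i hi
  obtain ⟨hdj, hDj⟩ := det_ker_pow hm' (act ρ σ₀) hp₀0 (hlog σ₀ p₀ hστ) hst j hjm
  obtain ⟨hdm, hDm⟩ := det_ker_pow hm' (act ρ σ₀) hp₀0 (hlog σ₀ p₀ hστ) hst m le_rfl
  set s := finrank (PadicAlgCl ℓ) (LinearMap.ker (N ^ 1)) with hs
  set D := LinearMap.det ((act ρ σ₀).restrict (hst 1)) with hD
  have hV : ∀ g, LinearMap.ker (N ^ m) ≤ (LinearMap.ker (N ^ m)).comap (act ρ g) := by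
    intro g x _
    rw [Submodule.mem_comap, ← hVm]
    exact Submodule.mem_top
  set ψW : GF ℚ →* (PadicAlgCl ℓ)ˣ := dt ρ (LinearMap.ker (N ^ j)) hW with hψW
  set ψV : GF ℚ →* (PadicAlgCl ℓ)ˣ := dt ρ (LinearMap.ker (N ^ m)) hV with hψV
  have hn : m * s = n := by
    rw [← hdm, ← hVm, finrank_top, finrank_fin_fun]
  -- three primes
  obtain ⟨t, htT, ht3⟩ := Set.exists_subset_encard_eq hT3
  have htfin : t.Finite := Set.finite_of_encard_eq_coe ht3
  have htc : Nat.card t = 3 := by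
    have h1 : Nat.card t = t.ncard := Nat.card_coe_set_eq t
    have h2 : (t.ncard : ℕ∞) = 3 := by rw [htfin.cast_ncard_eq]; exact ht3
    rw [h1]
    exact_mod_cast h2
  have hfin : Finite t := htfin
  obtain ⟨e⟩ : Nonempty (Fin 3 ≃ t) := by
    rw [← htc]
    exact ⟨(Finite.equivFin t).symm⟩
  set l : Fin 3 → ℕ := fun i => (e i : ℕ) with hl
  have hlT : ∀ i, l i ∈ T := fun i => htT (e i).2
  have hchoose : ∀ p : ℕ, p.Prime → ∃ (P : Ideal (OO ℚ)) (σ : GF ℚ), P.IsMaximal ∧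
    (p : OO ℚ) ∈ P ∧ FrobAt p P σ := fun p hp => exists_frobQ hp
  choose P σ hP hpP hσ using hchoose
  -- the eigenvalues
  have hAex : ∀ (U : Submodule (PadicAlgCl ℓ) (Fin n → PadicAlgCl ℓ))
      (hU : ∀ g, U ≤ U.comap (act ρ g)) (p : ℕ) (hp : p ∈ T), ∃ A : Multiset ℂ,
      Multiset.card A = finrank (PadicAlgCl ℓ) U ∧ A ≤ S p ∧
        A.prod = ι (dt ρ U hU (σ p (hT p hp).1)⁻¹ : PadicAlgCl ℓ) := by
    intro U hU p hp
    obtain ⟨A, hA1, hA2, hA3⟩ := exists_eig ρ ι U hU (σ p (hT p hp).1)⁻¹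
    rw [hgood p hp _ (hP p (hT p hp).1).isPrime (hpP p (hT p hp).1) _ (hσ p (hT p hp).1)] at hA2
    exact ⟨A, hA1, hA2, hA3⟩
  have hchar : ∀ (U : Submodule (PadicAlgCl ℓ) (Fin n → PadicAlgCl ℓ))
      (hU : ∀ g, U ≤ U.comap (act ρ g)), ∃ (M : ℕ) (a : ℤ), 0 < M ∧
      ∀ (q : ℕ) (Q : Ideal (OO ℚ)) (φ : GF ℚ), Q.IsPrime → (ℓ : OO ℚ) ∉ Q → FrobAt q Q φ →
        (dt ρ U hU φ : PadicAlgCl ℓ) ^ M = (q : PadicAlgCl ℓ) ^ a := by
    intro U hU
    refine char_bar ℓ (dt ρ U hU) (B.continuous_dt' ρ hρ U hU) l (fun i => (hT _ (hlT i)).1)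
      (fun i j hij => e.injective (Subtype.ext hij)) (fun i => (hT _ (hlT i)).2)
      (fun i => P (l i) (hT _ (hlT i)).1) (fun i => (hP _ _).isPrime) (fun i => hpP _ _)
      (fun i => σ (l i) (hT _ (hlT i)).1) (fun i => hσ _ _) fun i => ?_
    obtain ⟨A, -, hA2, hA3⟩ := hAex U hU (l i) (hlT i)
    have h1 : IsAlgebraic ℚ A.prod := M.isAlgebraic_multiset_prod fun a ha =>
      halg _ (hlT i) a (Multiset.mem_of_le hA2 ha)
    rw [hA3] at h1
    have h2 := (isAlgebraic_algHom_iff (RingHom.toRatAlgHom ι) ι.injective).1 h1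
    rw [map_inv, Units.val_inv_eq_inv_val] at h2
    exact IsAlgebraic.inv_iff.1 h2
  obtain ⟨M, a, hM, hMa⟩ := hchar _ hW
  obtain ⟨M', a', hM', hMa'⟩ := hchar _ hV
  -- the numbers
  have hs0 : 0 < s := by
    rcases Nat.eq_zero_or_pos s with h | h
    · exfalso
      apply hbot
      rw [← Submodule.finrank_eq_zero (R := PadicAlgCl ℓ), hdj, h, mul_zero]
    · exact h
  have hj0 : 0 < j := by
    rcases Nat.eq_zero_or_pos j with h | h
    · exfalso
      apply hbot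
      rw [← Submodule.finrank_eq_zero (R := PadicAlgCl ℓ), hdj, h, zero_mul]
    · exact h
  have hjm' : j < m := by
    refine lt_of_le_of_ne hjm fun h => htop ?_
    rw [h, ← hVm]
  obtain ⟨r, hr⟩ := Nat.exists_eq_add_of_lt hjm'
  -- the absolute values at `p₁`
  have hp₁p := (hT p₁ hp₁).1
  have hp₁r : (0 : ℝ) < p₁ := by exact_mod_cast hp₁p.pos
  obtain ⟨A, hA1, hA2, hA3⟩ := hAex _ hW p₁ hp₁
  obtain ⟨A', hA1', hA2', hA3'⟩ := hAex _ hV p₁ hp₁
  have hcardS : Multiset.card (S p₁) = n := by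
    rw [← hgood p₁ hp₁ _ (hP p₁ hp₁p).isPrime (hpP p₁ hp₁p) _ (hσ p₁ hp₁p)]
    have hsplit : ((((ρ (σ p₁ hp₁p)⁻¹ : GL (Fin n) (PadicAlgCl ℓ)) :
      Matrix (Fin n) (Fin n) (PadicAlgCl ℓ)).charpoly).map ι).Splits := IsAlgClosed.splits _
    rw [← hsplit.natDegree_eq_card_roots, Polynomial.natDegree_map,
      Matrix.charpoly_natDegree_eq_dim, Fintype.card_fin]
  have hA'S : A' = S p₁ := by
    refine Multiset.eq_of_le_of_card_le hA2' ?_
    rw [hA1', hcardS, hdm, hn]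
  obtain ⟨B, hB⟩ := Multiset.le_iff_exists_add.1 hA2
  have hpos : ∀ x ∈ S p₁, 0 < ‖x‖ := by
    intro x hx
    have h1 := hJS x hx x hx
    rcases (norm_nonneg x).lt_or_eq with h | h
    · exact h
    · rw [← h, mul_zero] at h1
      exact absurd h1 (lt_irrefl _)
  have hcA : Multiset.card A = j * s := by rw [hA1, hdj]
  have hcB : Multiset.card B = (r + 1) * s := by
    have h1 := congrArg Multiset.card hB
    rw [Multiset.card_add, hcardS, hcA, ← hn, hr] at h1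
    have h2 : (j + r + 1) * s = j * s + (r + 1) * s := by ring
    omega
  have hjs := js (A := B.map norm) (B := A.map norm) hp₁r (fun x hx => by
      obtain ⟨y, hy, rfl⟩ := Multiset.mem_map.1 hx
      exact hpos y (by rw [hB]; exact Multiset.mem_add.2 (Or.inr hy))) (fun x hx => by
      obtain ⟨y, hy, rfl⟩ := Multiset.mem_map.1 hx
      exact hpos y (Multiset.mem_of_le hA2 hy)) (fun x hx y hy => by
      obtain ⟨x', hx', rfl⟩ := Multiset.mem_map.1 hx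
      obtain ⟨y', hy', rfl⟩ := Multiset.mem_map.1 hy
      exact hJS x' (by rw [hB]; exact Multiset.mem_add.2 (Or.inr hx')) y'
        (Multiset.mem_of_le hA2 hy')) (by
      rw [Ne, Multiset.map_eq_zero, ← Multiset.card_eq_zero, hcB]
      exact (Nat.mul_pos (Nat.succ_pos r) hs0).ne') (by
      rw [Ne, Multiset.map_eq_zero, ← Multiset.card_eq_zero, hcA]
      exact (Nat.mul_pos hj0 hs0).ne')
  rw [Multiset.card_map, Multiset.card_map, hcA, hcB] at hjs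
  have hnormprod : ∀ C : Multiset ℂ, (C.map norm).prod = ‖C.prod‖ := by
    intro C
    induction C using Multiset.induction_on with
    | empty => simp
    | cons c C ih => rw [Multiset.map_cons, Multiset.prod_cons, Multiset.prod_cons, ih, norm_mul]
  rw [hnormprod, hnormprod] at hjs
  have hℓP : (ℓ : OO ℚ) ∉ P p₁ hp₁p :=
    not_mem_of_ne hp₁p (hT p₁ hp₁).2 (hP p₁ hp₁p).ne_top (hpP p₁ hp₁p)
  have hxval : ‖A.prod‖ ^ M = (p₁ : ℝ) ^ (-a) := by
    have h1 := hMa p₁ _ (σ p₁ hp₁p) (hP p₁ hp₁p).isPrime hℓP (hσ p₁ hp₁p)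
    rw [hA3, map_inv, Units.val_inv_eq_inv_val, map_inv₀, norm_inv, inv_pow, ← norm_pow, ← map_pow,
      h1, map_zpow₀, map_natCast, norm_zpow, Complex.norm_natCast, zpow_neg]
  have hyval : ‖A.prod * B.prod‖ ^ M' = (p₁ : ℝ) ^ (-a') := by
    have h1 := hMa' p₁ _ (σ p₁ hp₁p) (hP p₁ hp₁p).isPrime hℓP (hσ p₁ hp₁p)
    rw [← Multiset.prod_add, ← hB, ← hA'S, hA3', map_inv, Units.val_inv_eq_inv_val, map_inv₀,
      norm_inv, inv_pow, ← norm_pow, ← map_pow, h1, map_zpow₀, map_natCast, norm_zpow,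
      Complex.norm_natCast, zpow_neg]
  have hApos : 0 < ‖A.prod‖ := by
    rw [← hnormprod]
    refine Multiset.prod_pos fun x hx => ?_
    obtain ⟨y, hy, rfl⟩ := Multiset.mem_map.1 hx
    exact hpos y (Multiset.mem_of_le hA2 hy)
  have hlt : ‖A.prod * B.prod‖ ^ (j * s) <
      (p₁ : ℝ) ^ ((r + 1) * s * (j * s)) * ‖A.prod‖ ^ n := by
    rw [norm_mul, mul_pow]
    have h1 : ‖A.prod‖ ^ n = ‖A.prod‖ ^ (j * s) * ‖A.prod‖ ^ ((r + 1) * s) := by
      rw [← pow_add, ← hn, hr]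
      congr 1
      ring
    rw [h1]
    calc ‖A.prod‖ ^ (j * s) * ‖B.prod‖ ^ (j * s)
        < ‖A.prod‖ ^ (j * s) * ((p₁ : ℝ) ^ ((r + 1) * s * (j * s)) *
          ‖A.prod‖ ^ ((r + 1) * s)) := mul_lt_mul_of_pos_left hjs (pow_pos hApos _)
      _ = _ := by ring
  have hlt2 : -(a' * (j * s : ℕ) * M) < ((r + 1) * s * (j * s) : ℕ) * (M * M') - a * n * M' := by
    have h1 := pow_lt_pow_left₀ hlt (by positivity) (Nat.mul_pos hM hM').ne'
    have e1 : (‖A.prod * B.prod‖ ^ (j * s)) ^ (M * M') =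
        (p₁ : ℝ) ^ (-(a' * (j * s : ℕ) * M)) := by
      have h2 : (‖A.prod * B.prod‖ ^ (j * s)) ^ (M * M') =
          ((‖A.prod * B.prod‖ ^ M') ^ (j * s)) ^ M := by
        rw [← pow_mul, ← pow_mul, ← pow_mul]
        congr 1
        ring
      rw [h2, hyval, ← zpow_natCast, ← zpow_natCast, ← zpow_mul, ← zpow_mul]
      congr 1
      ring
    have e2 : ((p₁ : ℝ) ^ ((r + 1) * s * (j * s)) * ‖A.prod‖ ^ n) ^ (M * M') =
        (p₁ : ℝ) ^ (((r + 1) * s * (j * s) : ℕ) * (M * M') - a * n * M' : ℤ) := by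
      have h2 : (‖A.prod‖ ^ n) ^ (M * M') = ((‖A.prod‖ ^ M) ^ n) ^ M' := by
        rw [← pow_mul, ← pow_mul, ← pow_mul]
        congr 1
        ring
      rw [mul_pow, h2, hxval, ← pow_mul, ← zpow_natCast, ← zpow_natCast, ← zpow_natCast,
        ← zpow_mul, ← zpow_mul, ← zpow_add₀ hp₁r.ne']
      congr 1
      push_cast
      ring
    rw [e1, e2] at h1
    exact zpow_lt_iff hp₁p h1
  -- the absolute values at `p₀`
  have hℓQ : (ℓ : OO ℚ) ∉ Q₀ := not_mem_of_ne hp₀.1 hp₀.2 hQ₀.ne_top hpQ₀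
  have hW0 := hMa p₀ Q₀ σ₀ hQ₀ hℓQ hσ₀
  have hV0 := hMa' p₀ Q₀ σ₀ hQ₀ hℓQ hσ₀
  have hWD : (ψW σ₀ : PadicAlgCl ℓ) * (p₀ : PadicAlgCl ℓ) ^ (s * (j * (j - 1) / 2)) = D ^ j := hDj
  have hVD : (ψV σ₀ : PadicAlgCl ℓ) * (p₀ : PadicAlgCl ℓ) ^ (s * (m * (m - 1) / 2)) = D ^ m := hDm
  have hrel : (a * m * M' + (s * (j * (j - 1) / 2) : ℕ) * m * M * M' : ℤ) =
      a' * j * M + (s * (m * (m - 1) / 2) : ℕ) * j * M * M' := by
    have h1 : (((ψW σ₀ : PadicAlgCl ℓ) * (p₀ : PadicAlgCl ℓ) ^ (s * (j * (j - 1) / 2))) ^ m) ^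
        (M * M') = (((ψV σ₀ : PadicAlgCl ℓ) * (p₀ : PadicAlgCl ℓ) ^ (s * (m * (m - 1) / 2))) ^ j) ^
        (M * M') := by
      rw [hWD, hVD]
      congr 1
      rw [← pow_mul, ← pow_mul, mul_comm]
    have e1 : (((ψW σ₀ : PadicAlgCl ℓ) * (p₀ : PadicAlgCl ℓ) ^ (s * (j * (j - 1) / 2))) ^ m) ^
        (M * M') = (p₀ : PadicAlgCl ℓ) ^
          (a * m * M' + (s * (j * (j - 1) / 2) : ℕ) * m * M * M' : ℤ) := by
      have h2 : ((ψW σ₀ : PadicAlgCl ℓ) ^ m) ^ (M * M') =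
          (((ψW σ₀ : PadicAlgCl ℓ) ^ M) ^ m) ^ M' := by
        rw [← pow_mul, ← pow_mul, ← pow_mul]
        congr 1
        ring
      rw [mul_pow, mul_pow, h2, hW0, ← pow_mul, ← pow_mul, ← zpow_natCast, ← zpow_natCast,
        ← zpow_natCast, ← zpow_mul, ← zpow_mul, ← zpow_add₀ hp₀0]
      congr 1
      push_cast
      ring
    have e2 : (((ψV σ₀ : PadicAlgCl ℓ) * (p₀ : PadicAlgCl ℓ) ^ (s * (m * (m - 1) / 2))) ^ j) ^
        (M * M') = (p₀ : PadicAlgCl ℓ) ^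
          (a' * j * M + (s * (m * (m - 1) / 2) : ℕ) * j * M * M' : ℤ) := by
      have h2 : ((ψV σ₀ : PadicAlgCl ℓ) ^ j) ^ (M * M') =
          (((ψV σ₀ : PadicAlgCl ℓ) ^ M') ^ j) ^ M := by
        rw [← pow_mul, ← pow_mul, ← pow_mul]
        congr 1
        ring
      rw [mul_pow, mul_pow, h2, hV0, ← pow_mul, ← pow_mul, ← zpow_natCast, ← zpow_natCast,
        ← zpow_natCast, ← zpow_mul, ← zpow_mul, ← zpow_add₀ hp₀0]
      congr 1
      push_cast
      ring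
    rw [e1, e2] at h1
    have h3 := congrArg (fun z => ‖ι z‖) h1
    simp only [map_zpow₀, map_natCast, norm_zpow, Complex.norm_natCast] at h3
    exact zpow_right_injective₀ (by exact_mod_cast hp₀.1.pos) (by exact_mod_cast hp₀.1.one_lt.ne')
      h3
  -- the contradiction
  have htri : ∀ x : ℕ, 2 * ((x * (x - 1) / 2 : ℕ) : ℤ) = (x : ℤ) * (x - 1) := by
    intro x
    rcases x with _ | x
    · simp
    · have h1 : 2 * ((x + 1) * (x + 1 - 1) / 2) = (x + 1) * (x + 1 - 1) := by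
        rw [Nat.add_sub_cancel, mul_comm (x + 1) x]
        exact Nat.mul_div_cancel' (Nat.even_mul_succ_self x).two_dvd
      have h2 : (2 : ℤ) * (((x + 1) * (x + 1 - 1) / 2 : ℕ) : ℤ) =
          (((x + 1) * (x + 1 - 1) : ℕ) : ℤ) := by exact_mod_cast h1
      rw [h2, Nat.add_sub_cancel]
      push_cast
      ring
  have h1 := htri j
  have h2 := htri m
  set tj : ℤ := ((j * (j - 1) / 2 : ℕ) : ℤ) with htj
  set tm : ℤ := ((m * (m - 1) / 2 : ℕ) : ℤ) with htm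
  have hrel' : a * m * M' + s * tj * m * M * M' = a' * j * M + s * tm * j * M * M' := by
    have := hrel
    push_cast at this
    rw [htj, htm]
    push_cast
    exact this
  have hnZ : (n : ℤ) = m * s := by rw [← hn]; push_cast; ring
  have hmZ : (m : ℤ) = j + r + 1 := by rw [hr]; push_cast; ring
  have h3 : 2 * (a * n * M' - a' * (j * s) * M) =
      (m : ℤ) * (((r + 1) * s) * (j * s)) * (M * M') := by
    rw [hnZ]
    have h4 : 2 * s * (a * m * M' + s * tj * m * M * M') =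
        2 * s * (a' * j * M + s * tm * j * M * M') := by rw [hrel']
    have h5 : (s : ℤ) * s * (2 * tj) * m * M * M' = s * s * (j * (j - 1)) * m * M * M' := by
      rw [h1]
    have h6 : (s : ℤ) * s * (2 * tm) * j * M * M' = s * s * (m * (m - 1)) * j * M * M' := by
      rw [h2]
    have h7 : ((r : ℤ) + 1) = m - j := by linarith
    rw [h7]
    linear_combination h4 - h5 + h6
  have h4 : (2 : ℤ) ≤ m := by rw [hmZ]; have : (1 : ℤ) ≤ j := by exact_mod_cast hj0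
                              have : (0 : ℤ) ≤ r := by positivity
                              linarith
  have h5 : (0 : ℤ) ≤ ((r + 1) * s) * (j * s) * (M * M') := by positivity
  have h6 : a * n * M' - a' * (j * s) * M < ((r + 1) * s) * (j * s) * (M * M') := by
    push_cast at hlt2
    linarith
  nlinarith [mul_le_mul_of_nonneg_right h4 h5]

end Pool.Agent.Y115.ST
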